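import Pool.Agent.H918R2.Quad.Trans
import Pool.Agent.H918R2.Quad.Trdeg

/-! Task P1 (helper918, MP_4d1008_ag): purely transcendental extensions. -/

set_option autoImplicit false

namespace Pool.Agent.H473R2.Quad

open Pool.Agent.H918R2.Quad

/-- The converse direction of `exists_loc`. -/
theorem reg_of_loc {F A : Type} [Field F] [CommRing A] (ι : A →+* F) (hι : Function.Injective ι)
    (q : Ideal A) [q.IsPrime] (𝒪 : Subring F)
    (hmem : ∀ x, x ∈ 𝒪 ↔ ∃ a b : A, b ∉ q ∧ x = ι a / ι b)
    (hreg : IsRegularLocalRing (Localization.AtPrime q)) : IsRegularLocalRing 𝒪 := by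
  have hne : ∀ b : A, b ∉ q → ι b ≠ 0 := by
    intro b hb h
    apply hb
    have : b = 0 := hι (by rw [h, map_zero])
    rw [this]
    exact q.zero_mem
  let ψ : Localization.AtPrime q →+* F := IsLocalization.lift (M := q.primeCompl) (g := ι)
    (fun b => IsUnit.mk0 _ (hne b b.2))
  have hψ : ∀ (a : A) (b : q.primeCompl), ψ (IsLocalization.mk' _ a b) = ι a / ι b := by
    intro a b
    rw [IsLocalization.lift_mk'_spec, mul_div_cancel₀]
    exact hne b b.2
  have hψinj : Function.Injective ψ := by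
    rw [injective_iff_map_eq_zero]
    intro x hx
    obtain ⟨a, b, rfl⟩ := IsLocalization.exists_mk'_eq q.primeCompl x
    rw [hψ, div_eq_zero_iff] at hx
    have h1 : ι a = 0 := hx.resolve_right (hne b b.2)
    have h2 : a = 0 := hι (by rw [h1, map_zero])
    rw [h2, IsLocalization.mk'_zero]
  have hrange : 𝒪 = ψ.range := by
    ext x
    rw [hmem]
    constructor
    · rintro ⟨a, b, hb, rfl⟩
      exact ⟨IsLocalization.mk' _ a ⟨b, hb⟩, hψ a ⟨b, hb⟩⟩
    · rintro ⟨y, rfl⟩
      obtain ⟨a, b, rfl⟩ := IsLocalization.exists_mk'_eq q.primeCompl y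
      exact ⟨a, b, b.2, hψ a b⟩
  rw [hrange]
  exact IsRegularLocalRing.of_ringEquiv (RingEquiv.ofBijective ψ.rangeRestrict
      ⟨fun x y h => hψinj (congrArg Subtype.val h), ψ.rangeRestrict_surjective⟩)

/-- The ratios of the projective coordinates are algebraically independent. -/
theorem ratios_indep {K F : Type} [Field K] [Field F] [Algebra K F] {ρ : Type} [Finite ρ]
    (t : ρ → F) (ht : AlgebraicIndependent K t)
    (htop : IntermediateField.adjoin K (Set.range t) = ⊤) (τ : Option ρ → F) (hτ0 : τ none = 1)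
    (hτ : ∀ j, τ (some j) = t j) (i : Option ρ) (hi : τ i ≠ 0) :
    AlgebraicIndependent K (fun j : {j : Option ρ // j ≠ i} => τ j / τ i) := by
  classical
  have hfin : Fintype ρ := Fintype.ofFinite ρ
  set w : {j : Option ρ // j ≠ i} → F := fun j => τ j / τ i with hw
  have htop' : IntermediateField.adjoin K (Set.range w) = ⊤ := by
    rw [eq_top_iff, ← htop, IntermediateField.adjoin_le_iff]
    set L := IntermediateField.adjoin K (Set.range w) with hL
    have h1 : ∀ j, τ j / τ i ∈ L := by
      intro j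
      by_cases hj : j = i
      · rw [hj, div_self hi]; exact L.one_mem
      · exact IntermediateField.subset_adjoin K _ ⟨⟨j, hj⟩, rfl⟩
    rintro _ ⟨j, rfl⟩
    have h3 : t j = (τ (some j) / τ i) / (τ none / τ i) := by
      rw [hτ0, hτ]
      field_simp
    rw [h3]
    exact L.div_mem (h1 _) (h1 _)
  have halg := isAlgebraic_of_adjoin_eq_top (Set.range w) htop'
  have halgt := isAlgebraic_of_adjoin_eq_top (Set.range t) htop
  have htb : IsTranscendenceBasis K t := by
    rw [isTranscendenceBasis_iff_algebraicIndependent_isAlgebraic]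
    exact ⟨ht, halgt⟩
  have hcard : Cardinal.mk {j : Option ρ // j ≠ i} ≤ Algebra.trdeg K F := by
    rw [← htb.cardinalMk_eq_trdeg, Cardinal.mk_fintype, Cardinal.mk_fintype,
      Fintype.card_subtype_compl, Fintype.card_subtype_eq, Fintype.card_option]
    simp
  exact (Algebra.IsAlgebraic.isTranscendenceBasis_of_le_trdeg_of_finite K w hcard).1

/-- A chart of a finitely generated module is an algebra of finite type. -/
theorem chart_noeth {O F : Type} [CommRing O] [IsNoetherianRing O] [Field F] [Algebra O F]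
    (M : Submodule O F) (hM : M.FG) (f : F) : IsNoetherianRing (chart O M f) := by
  obtain ⟨s, hs⟩ := hM
  have h1 : chart O M f = Algebra.adjoin O ((fun m => m / f) '' (s : Set F)) := by
    apply le_antisymm
    · apply Algebra.adjoin_le
      rintro y ⟨m, hm, rfl⟩
      rw [← hs] at hm
      change m / f ∈ Algebra.adjoin O _
      induction hm using Submodule.span_induction with
      | mem x hx => exact Algebra.subset_adjoin ⟨x, hx, rfl⟩
      | zero => rw [zero_div]; exact Subalgebra.zero_mem _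
      | add x y _ _ hx hy => rw [add_div]; exact Subalgebra.add_mem _ hx hy
      | smul r x _ hx => 
        rw [Algebra.smul_def, mul_div_assoc]
        exact Subalgebra.mul_mem _ (Subalgebra.algebraMap_mem _ _) hx
    · apply Algebra.adjoin_mono
      rintro y ⟨x, hx, rfl⟩
      refine ⟨x, ?_, rfl⟩
      rw [← hs]
      exact Submodule.subset_span hx
  rw [h1]
  exact isNoetherianRing_of_fg (Subalgebra.fg_def.2 ⟨_, s.finite_toSet.image _, rfl⟩)

section main

variable {O F₀ F : Type} [CommRing O] [Field F₀] [Field F]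
    [Algebra O F₀] [Algebra F₀ F] [Algebra O F] [IsScalarTower O F₀ F]

/-- Fractions of a subalgebra. -/
def Fr (C : Subalgebra O F) (y : F) : Prop := ∃ b ∈ C, ∃ c ∈ C, c ≠ 0 ∧ y = b / c

theorem Fr.of_mem {C : Subalgebra O F} {y : F} (hy : y ∈ C) : Fr C y :=
  ⟨y, hy, 1, C.one_mem, one_ne_zero, by rw [div_one]⟩

theorem Fr.add {C : Subalgebra O F} {y z : F} (hy : Fr C y) (hz : Fr C z) : Fr C (y + z) := by
  obtain ⟨b, hb, c, hc, hc0, rfl⟩ := hy
  obtain ⟨b', hb', c', hc', hc0', rfl⟩ := hz
  refine ⟨b * c' + b' * c, Subalgebra.add_mem _ (Subalgebra.mul_mem _ hb hc')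
        (Subalgebra.mul_mem _ hb' hc), c * c', Subalgebra.mul_mem _ hc hc',
        mul_ne_zero hc0 hc0', ?_⟩
  field_simp

theorem Fr.mul {C : Subalgebra O F} {y z : F} (hy : Fr C y) (hz : Fr C z) : Fr C (y * z) := by
  obtain ⟨b, hb, c, hc, hc0, rfl⟩ := hy
  obtain ⟨b', hb', c', hc', hc0', rfl⟩ := hz
  refine ⟨b * b', Subalgebra.mul_mem _ hb hb', c * c', Subalgebra.mul_mem _ hc hc',
        mul_ne_zero hc0 hc0', ?_⟩
  field_simp

theorem Fr.inv {C : Subalgebra O F} {y : F} (hy : Fr C y) : Fr C y⁻¹ := by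
  obtain ⟨b, hb, c, hc, hc0, rfl⟩ := hy
  by_cases hb0 : b = 0
  · refine ⟨0, Subalgebra.zero_mem _, 1, Subalgebra.one_mem _, one_ne_zero, ?_⟩
    rw [hb0]; simp
  · exact ⟨c, hc, b, hb, hb0, by rw [inv_div]⟩

theorem Fr.div {C : Subalgebra O F} {y z : F} (hy : Fr C y) (hz : Fr C z) : Fr C (y / z) := by
  rw [div_eq_mul_inv]; exact hy.mul hz.inv

/-- TASK P1 (unfolded): purely transcendental extensions. -/
theorem hasModule_poly [IsNoetherianRing O]
    (h : ∃ M : Submodule O F₀, M.FG ∧ (∃ f ∈ M, f ≠ 0) ∧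
      (∀ f ∈ M, f ≠ 0 → ∀ y : F₀, ∃ b ∈ chart O M f, ∃ c ∈ chart O M f, c ≠ 0 ∧ y = b / c) ∧
      ∀ f ∈ M, f ≠ 0 → ∀ (q : Ideal (chart O M f)) [q.IsPrime],
        IsRegularLocalRing (Localization.AtPrime q))
    {ρ : Type} [Finite ρ] (t : ρ → F) (ht : AlgebraicIndependent F₀ t)
    (htop : IntermediateField.adjoin F₀ (Set.range t) = ⊤) :
    ∃ M : Submodule O F, M.FG ∧ (∃ f ∈ M, f ≠ 0) ∧
      (∀ f ∈ M, f ≠ 0 → ∀ y : F, ∃ b ∈ chart O M f, ∃ c ∈ chart O M f, c ≠ 0 ∧ y = b / c) ∧
      ∀ f ∈ M, f ≠ 0 → ∀ (q : Ideal (chart O M f)) [q.IsPrime],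
        IsRegularLocalRing (Localization.AtPrime q) := by
  classical
  obtain ⟨M₀, hM₀, ⟨f₀, hf₀, hf₀0⟩, hfrac, hreg₀⟩ := h
  obtain ⟨s, hs⟩ := id hM₀
  have hinj : Function.Injective (algebraMap F₀ F) := (algebraMap F₀ F).injective
  set τ : Option ρ → F := fun i => i.elim 1 t with hτ
  have hτ0 : τ none = 1 := rfl
  have hτs : ∀ j, τ (some j) = t j := fun j => rfl
  set G : Set F := {g | ∃ m ∈ s, ∃ i, g = algebraMap F₀ F m * τ i} with hG
  have hGfin : G.Finite := by
    have h1 : G = Set.range (fun p : s × Option ρ => algebraMap F₀ F p.1 * τ p.2) := by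
      ext g
      constructor
      · rintro ⟨m, hm, i, rfl⟩
        exact ⟨(⟨m, hm⟩, i), rfl⟩
      · rintro ⟨⟨⟨m, hm⟩, i⟩, rfl⟩
        exact ⟨m, hm, i, rfl⟩
    rw [h1]
    exact Set.finite_range _
  have hmem : ∀ m ∈ M₀, ∀ i, algebraMap F₀ F m * τ i ∈ Submodule.span O G := by
    intro m hm i
    rw [← hs] at hm
    induction hm using Submodule.span_induction with
    | mem x hx => exact Submodule.subset_span ⟨x, hx, i, rfl⟩
    | zero => rw [map_zero, zero_mul]; exact Submodule.zero_mem _
    | add x y _ _ hx hy => rw [map_add, add_mul]; exact Submodule.add_mem _ hx hy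
    | smul r x _ hx =>
      rw [Algebra.smul_def, map_mul, ← IsScalarTower.algebraMap_apply, mul_assoc,
        ← Algebra.smul_def]
      exact Submodule.smul_mem _ _ hx
  have hmem0 : ∀ m ∈ M₀, algebraMap F₀ F m ∈ Submodule.span O G := by
    intro m hm
    have := hmem m hm none
    rwa [hτ0, mul_one] at this
  refine ⟨Submodule.span O G, Submodule.fg_span hGfin, ⟨algebraMap F₀ F f₀, hmem0 _ hf₀, ?_⟩, ?_, ?_⟩
  · rw [Ne, map_eq_zero]; exact hf₀0
  · intro f hf hf0 y
    have hdiv : ∀ u ∈ Submodule.span O G, Fr (chart O (Submodule.span O G) f) (u / f) :=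
      fun u hu => Fr.of_mem (Algebra.subset_adjoin ⟨u, hu, rfl⟩)
    have hf₀F : algebraMap F₀ F f₀ ≠ 0 := by rw [Ne, map_eq_zero]; exact hf₀0
    have hy : y ∈ IntermediateField.adjoin F₀ (Set.range t) := by
      rw [htop]; trivial
    change Fr (chart O (Submodule.span O G) f) y
    induction hy using IntermediateField.adjoin_induction with
    | mem y hy =>
      obtain ⟨j, rfl⟩ := hy
      have h1 : t j = (algebraMap F₀ F f₀ * τ (some j) / f) / (algebraMap F₀ F f₀ / f) := by
        rw [hτs]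
        field_simp
      rw [h1]
      exact (hdiv _ (hmem _ hf₀ _)).div (hdiv _ (hmem0 _ hf₀))
    | algebraMap k =>
      obtain ⟨b, hb, c, hc, hc0, rfl⟩ := hfrac f₀ hf₀ hf₀0 k
      have key : ∀ b ∈ chart O M₀ f₀, Fr (chart O (Submodule.span O G) f) (algebraMap F₀ F b) := by
        intro b hb
        induction hb using Algebra.adjoin_induction with
        | mem x hx =>
          obtain ⟨m, hm, rfl⟩ := hx
          have h1 : algebraMap F₀ F (m / f₀) =
              (algebraMap F₀ F m / f) / (algebraMap F₀ F f₀ / f) := by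
            rw [map_div₀]
            field_simp
          rw [h1]
          exact (hdiv _ (hmem0 _ hm)).div (hdiv _ (hmem0 _ hf₀))
        | algebraMap r =>
          rw [← IsScalarTower.algebraMap_apply]
          exact Fr.of_mem (Subalgebra.algebraMap_mem _ _)
        | add x y _ _ hx hy => rw [map_add]; exact hx.add hy
        | mul x y _ _ hx hy => rw [map_mul]; exact hx.mul hy
      rw [map_div₀]
      exact (key b hb).div (key c hc)
    | add y z _ _ hy hz => exact hy.add hz
    | inv y _ hy => exact hy.inv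
    | mul y z _ _ hy hz => exact hy.mul hz
  · intro f hf hf0 q hq
    obtain ⟨𝒪, hloc, hmemO, hU, hreg⟩ := exists_loc
      ((chart O (Submodule.span O G) f).val : chart O (Submodule.span O G) f →+* F)
      Subtype.val_injective q
    apply hreg
    have hval : ∀ a : chart O (Submodule.span O G) f,
      ((chart O (Submodule.span O G) f).val : chart O (Submodule.span O G) f →+* F) a = (a : F) :=
      fun a => rfl
    simp only [hval] at hmemO hU
    have hchart : ∀ a ∈ chart O (Submodule.span O G) f, a ∈ 𝒪 := by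
      intro a ha
      rw [hmemO]
      refine ⟨⟨a, ha⟩, 1, (Ideal.ne_top_iff_one q).1 Ideal.IsPrime.ne_top', by simp⟩
    have hO : ∀ r : O, algebraMap O F r ∈ 𝒪 := fun r => hchart _ (Subalgebra.algebraMap_mem _ _)
    have hspan : ∀ m ∈ Submodule.span O G, m / f ∈ 𝒪 := fun m hm =>
      hchart _ (Algebra.subset_adjoin ⟨m, hm, rfl⟩)
    have hLocOf : IsLocOf 𝒪 (chart O (Submodule.span O G) f) := by
      refine ⟨hchart, ?_⟩
      intro x hx
      obtain ⟨a, b, hb, rfl⟩ := (hmemO x).1 hx
      exact ⟨a, a.2, b, b.2, (hU b).2 hb, rfl⟩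
    obtain ⟨g', hg', hUg'⟩ := exists_U_gen hloc hO G f hf0
      (fun g hg => hspan g (Submodule.subset_span hg)) hf
    obtain ⟨g, hgs, i, rfl⟩ := hg'
    have hgM : g ∈ M₀ := by rw [← hs]; exact Submodule.subset_span hgs
    have hne := hUg'.1
    have hgτ : algebraMap F₀ F g * τ i ≠ 0 := by
      intro h0; apply hne; rw [h0, zero_div]
    have hgF : algebraMap F₀ F g ≠ 0 := left_ne_zero_of_mul hgτ
    have hτi : τ i ≠ 0 := right_ne_zero_of_mul hgτ
    have hg0 : g ≠ 0 := by rintro rfl; exact hgF (map_zero _)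
    have hrat : ∀ m ∈ M₀, ∀ j, (algebraMap F₀ F m * τ j) / (algebraMap F₀ F g * τ i) ∈ 𝒪 := by
      intro m hm j
      have h1 : (algebraMap F₀ F m * τ j) / (algebraMap F₀ F g * τ i) =
          (algebraMap F₀ F m * τ j / f) * (algebraMap F₀ F g * τ i / f)⁻¹ := by
        field_simp
      rw [h1]
      exact 𝒪.mul_mem (hspan _ (hmem m hm j)) hUg'.2.2
    have hmg : ∀ m ∈ M₀, algebraMap F₀ F (m / g) ∈ 𝒪 := by
      intro m hm
      have h1 : algebraMap F₀ F (m / g) =
          (algebraMap F₀ F m * τ i) / (algebraMap F₀ F g * τ i) := by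
        rw [map_div₀]; field_simp
      rw [h1]
      exact hrat m hm i
    have hτj : ∀ j, τ j / τ i ∈ 𝒪 := by
      intro j
      have h1 : τ j / τ i = (algebraMap F₀ F g * τ j) / (algebraMap F₀ F g * τ i) := by
        field_simp
      rw [h1]
      exact hrat g hgM j
    let A₀ := chart O M₀ g
    have hA₀ : ∀ a : A₀, algebraMap F₀ F (a : F₀) ∈ 𝒪 := by
      rintro ⟨a, ha⟩
      change algebraMap F₀ F a ∈ 𝒪
      induction ha using Algebra.adjoin_induction with
      | mem x hx =>
        obtain ⟨m, hm, rfl⟩ := hx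
        exact hmg m hm
      | algebraMap r =>
        rw [← IsScalarTower.algebraMap_apply]
        exact hO r
      | add x y _ _ hx hy => rw [map_add]; exact 𝒪.add_mem hx hy
      | mul x y _ _ hx hy => rw [map_mul]; exact 𝒪.mul_mem hx hy
    have hnoeth : IsNoetherianRing A₀ := chart_noeth M₀ hM₀ g
    have hregA : IsRegularRing A₀ := by
      rw [isRegularRing_iff]
      intro p hp
      exact hreg₀ g hgM hg0 p
    let W := MvPolynomial {j : Option ρ // j ≠ i} A₀
    have hregW : IsRegularRing W := inferInstance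
    have hind := ratios_indep t ht htop τ hτ0 hτs i hτi
    have hindA : AlgebraicIndependent A₀ (fun j : {j : Option ρ // j ≠ i} => τ j / τ i) :=
      hind.restrictScalars (K := F₀) Subtype.val_injective
    let e : W →ₐ[O] F := (MvPolynomial.aeval (R := A₀)
      (fun j : {j : Option ρ // j ≠ i} => τ j / τ i)).restrictScalars O
    have heinj : Function.Injective e := hindA
    have heC : ∀ a : A₀, e (MvPolynomial.C a) = algebraMap F₀ F (a : F₀) := by
      intro a
      change MvPolynomial.aeval (R := A₀) (fun j : {j : Option ρ // j ≠ i} => τ j / τ i)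
        (MvPolynomial.C a) = _
      rw [MvPolynomial.aeval_C]
      rfl
    have heX : ∀ j, e (MvPolynomial.X j) = τ j / τ i := by
      intro j
      change MvPolynomial.aeval (R := A₀) (fun j : {j : Option ρ // j ≠ i} => τ j / τ i)
        (MvPolynomial.X j) = _
      rw [MvPolynomial.aeval_X]
    have he : ∀ w, e w ∈ 𝒪 := by
      intro w
      induction w using MvPolynomial.induction_on with
      | C a => rw [heC]; exact hA₀ a
      | add p q hp hq => rw [map_add]; exact 𝒪.add_mem hp hq
      | mul_X p j hp => rw [map_mul, heX]; exact 𝒪.mul_mem hp (hτj j)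
    have hfr := frac_of_chart (R := O) e he G f (algebraMap F₀ F g * τ i) hgτ (by
      rintro g' ⟨m, hm, j, rfl⟩
      have hmM : m ∈ M₀ := by rw [← hs]; exact Submodule.subset_span hm
      have hmgA : m / g ∈ A₀ := Algebra.subset_adjoin ⟨m, hmM, rfl⟩
      by_cases hj : j = i
      · refine ⟨MvPolynomial.C ⟨m / g, hmgA⟩, ?_⟩
        rw [heC, hj, map_div₀]
        field_simp
      · refine ⟨MvPolynomial.C ⟨m / g, hmgA⟩ * MvPolynomial.X ⟨j, hj⟩, ?_⟩
        rw [map_mul, heC, heX, map_div₀]
        field_simp) hf (by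
      have := hUg'.inv
      rwa [inv_div] at this) hLocOf
    let q' : Ideal W := primeOf hloc (e : W →+* F) he
    have hq' : ∀ w, w ∉ q' ↔ U 𝒪 (e w) := by
      intro w
      change ¬ (¬ U 𝒪 (e w)) ↔ _
      rw [not_not]
    refine reg_of_loc (e : W →+* F) heinj q' 𝒪 ?_ inferInstance
    intro x
    constructor
    · intro hx
      obtain ⟨a, b, hb0, hb, rfl⟩ := hfr x hx
      exact ⟨a, b, (hq' b).2 ⟨hb0, he b, hb⟩, rfl⟩
    · rintro ⟨a, b, hb, rfl⟩
      have := (hq' b).1 hb
      rw [div_eq_mul_inv]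
      exact 𝒪.mul_mem (he a) this.2.2

end main

end Pool.Agent.H473R2.Quad
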